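import Pool.Agent.Helper76.P13.StC

/-!
# Project P13, module O1: odd exponent, the three plane functions of a balanced new symbol

Model: `Pool/Agent/Helper60/Q5P3/M_O1.lean`.
-/

set_option autoImplicit false

namespace Pool.Agent.Helper60.P13

open Pool.Agent.Helper76.P13
open Pool.Agent.Helper14.CV (Homog EqC act StFar ne_zero_of_det)
open Pool.Agent.Helper28.WK (SymP)

/-- the matrix `(a, b; 13c, d)` of determinant one has coordinates `(x, y)` -/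
private def P0 {q : ℕ} (a b c d : ℤ) (x y : ZMod q) : Prop :=
  a * d - 13 * b * c = 1 ∧ (b : ZMod q) = x * a ∧ (c : ZMod q) = y * d

private lemma P0.pl {q : ℕ} {a b c d : ℤ} {x y : ZMod q} (h : P0 a b c d x y) :
    Pl13 0 a b c d x y := by
  refine ⟨?_, h.2⟩
  rw [zero_add, pow_one]
  exact h.1

private lemma z1 (j : ℕ) : (13 : ZMod (13 ^ (j + 1))) ^ (j + 1) = 0 := by
  have h := ZMod.natCast_self (13 ^ (j + 1))
  push_cast at h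
  exact h

/-- `α + 13 γ x` is a unit -/
private lemma un (j : ℕ) {α β γ δ : ℤ} (h : α * δ - 13 * β * γ = 1)
    (x : ZMod (13 ^ (j + 1))) :
    IsUnit ((α : ZMod (13 ^ (j + 1))) + 13 * γ * x) := by
  obtain ⟨X, rfl⟩ := ZMod.intCast_surjective x
  have : IsUnit (((α + 13 * γ * X : ℤ) : ZMod (13 ^ (j + 1)))) := by
    rw [ZMod.coe_int_isUnit_iff_isCoprime]
    push_cast
    exact IsCoprime.pow_left ⟨-(β * γ) - γ * X * δ, δ, by linear_combination h⟩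
  push_cast at this
  exact this

private lemma exM (hPlA : S13PlA) (j : ℕ) (x y : ZMod (13 ^ (j + 1))) :
    ∃ b c d : ℤ, P0 1 b c d x y := by
  obtain ⟨h1, h2⟩ := hPlA 0 (j + 1) (j + 1) x y
  rw [zero_add, pow_one] at h1
  exact ⟨_, _, _, h1, by rw [zero_add, pow_one] at h2; exact h2⟩

private lemma sd {q : ℕ} {b c d : ℤ} {x y : ZMod q} (h : P0 1 b c d x y) :
    d - 13 * b * c = 1 ∧ (b : ZMod q) = x ∧ (c : ZMod q) = y * d := by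
  obtain ⟨h1, h2, h3⟩ := h
  rw [Int.cast_one, mul_one] at h2
  exact ⟨by linear_combination h1, h2, h3⟩

private lemma nz {a b c d : ℤ} (h : a * d - 13 * b * c = 1) {u1 u2 : ℤ}
    (hu : u1 ≠ 0 ∨ u2 ≠ 0) : a * u1 + b * u2 ≠ 0 ∨ 13 * c * u1 + d * u2 ≠ 0 :=
  ne_zero_of_det (a := a) (b := b) (c := 13 * c) (d := d)
    (by rw [show a * d - b * (13 * c) = 1 by linear_combination h]; exact one_ne_zero) hu

/-- the matrix `(1 13^j i; 0 1) g` -/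
private lemma plT (j : ℕ) (i : ℤ) {b c d : ℤ} {x y : ZMod (13 ^ (j + 1))}
    (h : P0 1 b c d x y) :
    P0 (1 + 13 ^ (j + 1) * i * c) (b + 13 ^ j * i * d) c d
      (x + (i : ZMod (13 ^ (j + 1))) * 13 ^ j) y := by
  obtain ⟨h1, h2, h3⟩ := sd h
  have e : (d : ZMod (13 ^ (j + 1))) = 1 + 13 * b * c := by
    have := congrArg (Int.cast : ℤ → ZMod (13 ^ (j + 1))) h1
    push_cast at this
    linear_combination this
  refine ⟨by linear_combination h1, ?_, h3⟩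
  push_cast
  linear_combination h2 + (i : ZMod (13 ^ (j + 1))) * 13 ^ j * e +
    (i : ZMod (13 ^ (j + 1))) * b * c * z1 j -
    (x + i * 13 ^ j) * (i : ZMod (13 ^ (j + 1))) * (c : ZMod (13 ^ (j + 1))) * z1 j

/-- the matrix `(1 0; i 13^(j+1) 1) g` -/
private lemma plL (j : ℕ) (i : ℤ) {b c d : ℤ} {x y : ZMod (13 ^ (j + 1))}
    (h : P0 1 b c d x y) :
    P0 1 b (c + 13 ^ j * i) (d + 13 ^ (j + 1) * i * b) x
      (y + (i : ZMod (13 ^ (j + 1))) * 13 ^ j) := by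
  obtain ⟨h1, h2, h3⟩ := sd h
  have e : (d : ZMod (13 ^ (j + 1))) = 1 + 13 * b * c := by
    have := congrArg (Int.cast : ℤ → ZMod (13 ^ (j + 1))) h1
    push_cast at this
    linear_combination this
  refine ⟨by linear_combination h1, by rw [h2, Int.cast_one, mul_one], ?_⟩
  push_cast
  linear_combination h3 - (i : ZMod (13 ^ (j + 1))) * 13 ^ j * e -
    (i : ZMod (13 ^ (j + 1))) * b * c * z1 j -
    (y + i * 13 ^ j) * (i : ZMod (13 ^ (j + 1))) * (b : ZMod (13 ^ (j + 1))) * z1 j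

/-- the matrix `g m` -/
private lemma plM {q : ℕ} {b c d α β γ δ : ℤ} {x y x' y' : ZMod q} (h : P0 1 b c d x y)
    (hm : α * δ - 13 * β * γ = 1)
    (hx : x' * (α + 13 * γ * x) = β + δ * x) (hy : y' * (δ + 13 * β * y) = γ + α * y) :
    P0 (α + 13 * b * γ) (β + b * δ) (c * α + d * γ) (13 * c * β + d * δ) x' y' := by
  obtain ⟨h1, h2, h3⟩ := sd h
  refine ⟨by linear_combination (d - 13 * b * c) * hm + h1, ?_, ?_⟩
  · push_cast
    rw [h2]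
    linear_combination -hx
  · push_cast
    rw [h3]
    linear_combination -(d : ZMod q) * hy

section

variable {j : ℕ} {G : ℤ → ℤ → ℂ}

/-- the value of the symbol by any matrix with the given coordinates -/
private lemma ed (hEdg : S13Edg) (hS : SymP 13 (j + 1) (j + 2) G) {u1 u2 v1 v2 : ℤ}
    (hu : u1 ≠ 0 ∨ u2 ≠ 0) (hv : v1 ≠ 0 ∨ v2 ≠ 0) {a b c d : ℤ} {x y : ZMod (13 ^ (j + 1))}
    (h : P0 a b c d x y) :
    edge13 0 u1 u2 v1 v2 G x y = G (a * u1 + b * u2) (13 * c * u1 + d * u2) -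
      G (a * v1 + b * v2) (13 * c * v1 + d * v2) := by
  have e := hEdg ℂ _ 0 (j + 1) (j + 1) G hS u1 u2 v1 v2 hu hv x y a b c d h.pl
  rw [pow_zero, one_mul] at e
  exact e

private lemma shx (hPlA : S13PlA) (hEdg : S13Edg) (hB : BalO (j + 1) G) {u1 u2 v1 v2 : ℤ}
    (hu : u1 ≠ 0 ∨ u2 ≠ 0) (hv : v1 ≠ 0 ∨ v2 ≠ 0) (x y : ZMod (13 ^ (j + 1))) :
    ∑ i ∈ Finset.range 13,
      edge13 0 u1 u2 v1 v2 G (x + (i : ZMod (13 ^ (j + 1))) * 13 ^ j) y = 0 := by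
  obtain ⟨hS, hT, -, -, -⟩ := hB
  obtain ⟨b, c, d, h⟩ := exM hPlA j x y
  have e := hT.diff (nz h.1 hu) (nz h.1 hv)
  simp only [Finset.sum_apply, act, Pi.zero_apply, sub_zero] at e
  rw [← Finset.sum_sub_distrib] at e
  rw [← e]
  refine Finset.sum_congr rfl fun i _ => ?_
  have g := plT j (i : ℤ) h
  rw [Int.cast_natCast] at g
  rw [ed hEdg hS hu hv g]
  have ej : j + 1 - 1 = j := rfl
  rw [ej]
  congr 1 <;> congr 1 <;> ring

private lemma shy (hPlA : S13PlA) (hEdg : S13Edg) (hB : BalO (j + 1) G) {u1 u2 v1 v2 : ℤ}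
    (hu : u1 ≠ 0 ∨ u2 ≠ 0) (hv : v1 ≠ 0 ∨ v2 ≠ 0) (x y : ZMod (13 ^ (j + 1))) :
    ∑ i ∈ Finset.range 13,
      edge13 0 u1 u2 v1 v2 G x (y + (i : ZMod (13 ^ (j + 1))) * 13 ^ j) = 0 := by
  obtain ⟨hS, -, hT, -, -⟩ := hB
  obtain ⟨b, c, d, h⟩ := exM hPlA j x y
  have e := hT.diff (nz h.1 hu) (nz h.1 hv)
  simp only [Finset.sum_apply, act, Pi.zero_apply, sub_zero] at e
  rw [← Finset.sum_sub_distrib] at e
  rw [← e]
  refine Finset.sum_congr rfl fun i _ => ?_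
  have g := plL j (i : ℤ) h
  rw [Int.cast_natCast] at g
  rw [ed hEdg hS hu hv g]
  congr 1 <;> congr 1 <;> ring

/-- `G∘b ≈ -G`, `b = (0 1; 13 0)` -/
private lemma bq (hB : BalO (j + 1) G) {s1 s2 t1 t2 : ℤ} (hs : s1 ≠ 0 ∨ s2 ≠ 0)
    (ht : t1 ≠ 0 ∨ t2 ≠ 0) :
    G s2 (13 * s1) - G t2 (13 * t1) = -(G s1 s2 - G t1 t2) := by
  obtain ⟨-, -, -, hW, hT⟩ := hB
  have hs' : s2 ≠ 0 ∨ 13 * s1 ≠ 0 := by omega
  have ht' : t2 ≠ 0 ∨ 13 * t1 ≠ 0 := by omega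
  have e := hW.diff hs ht
  have f := hT.diff hs' ht'
  simp only [act, Pi.neg_apply, zero_mul, zero_add, neg_mul, one_mul, add_zero] at e f
  linear_combination e - f

private lemma sq (hB : BalO (j + 1) G) {s1 s2 t1 t2 : ℤ} (hs : s1 ≠ 0 ∨ s2 ≠ 0)
    (ht : t1 ≠ 0 ∨ t2 ≠ 0) :
    G (-s1) s2 - G (-t1) t2 = G s1 s2 - G t1 t2 := by
  obtain ⟨-, -, -, -, hT⟩ := hB
  have f := hT.diff hs ht
  simp only [act, zero_mul, zero_add, neg_mul, one_mul, add_zero] at f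
  exact f

private lemma nsw {s t : ℤ} (h : s ≠ 0 ∨ t ≠ 0) : t ≠ 0 ∨ 13 * s ≠ 0 := by omega

private lemma nng {s t : ℤ} (h : s ≠ 0 ∨ t ≠ 0) : -s ≠ 0 ∨ t ≠ 0 := by omega

/-- conjugation by `b = (0 1; 13 0)` -/
private lemma sw_rw (hPlA : S13PlA) (hEdg : S13Edg) (hB : BalO (j + 1) G) {u1 u2 v1 v2 : ℤ}
    (hu : u1 ≠ 0 ∨ u2 ≠ 0) (hv : v1 ≠ 0 ∨ v2 ≠ 0) (p : Pt (j + 1)) :
    edge13 0 u1 u2 v1 v2 G (sw p).1 (sw p).2 =
      -edge13 0 u2 (13 * u1) v2 (13 * v1) G p.1 p.2 := by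
  obtain ⟨b, c, d, h⟩ := exM hPlA j p.1 p.2
  obtain ⟨h1, h2, h3⟩ := sd h
  have h' : P0 d c b 1 (sw p).1 (sw p).2 := by
    refine ⟨by linear_combination h1, h3, ?_⟩
    show ((b : ℤ) : ZMod (13 ^ (j + 1))) = p.1 * ((1 : ℤ) : ZMod (13 ^ (j + 1)))
    rw [h2, Int.cast_one, mul_one]
  rw [ed hEdg hB.1 hu hv h', ed hEdg hB.1 (nsw hu) (nsw hv) h]
  have e := bq hB (nz h'.1 hu) (nz h'.1 hv)
  have e1 : ∀ s t : ℤ, 1 * t + b * (13 * s) = 13 * b * s + 1 * t := by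
    intro s t; ring
  have e2 : ∀ s t : ℤ, 13 * c * t + d * (13 * s) = 13 * (d * s + c * t) := by
    intro s t; ring
  rw [e1, e2, e1, e2]
  linear_combination e

/-- conjugation by `*` -/
private lemma ng_rw (hPlA : S13PlA) (hEdg : S13Edg) (hB : BalO (j + 1) G) {u1 u2 v1 v2 : ℤ}
    (hu : u1 ≠ 0 ∨ u2 ≠ 0) (hv : v1 ≠ 0 ∨ v2 ≠ 0) (p : Pt (j + 1)) :
    edge13 0 u1 u2 v1 v2 G (ng p).1 (ng p).2 = edge13 0 (-u1) u2 (-v1) v2 G p.1 p.2 := by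
  obtain ⟨b, c, d, h⟩ := exM hPlA j p.1 p.2
  obtain ⟨h1, h2, h3⟩ := sd h
  have h' : P0 1 (-b) (-c) d (ng p).1 (ng p).2 := by
    refine ⟨by linear_combination h1, ?_, ?_⟩
    · show ((-b : ℤ) : ZMod (13 ^ (j + 1))) = -p.1 * ((1 : ℤ) : ZMod (13 ^ (j + 1)))
      push_cast
      rw [h2, mul_one]
    · show ((-c : ℤ) : ZMod (13 ^ (j + 1))) = -p.2 * (d : ZMod (13 ^ (j + 1)))
      push_cast
      rw [h3]
      ring
  rw [ed hEdg hB.1 hu hv h', ed hEdg hB.1 (nng hu) (nng hv) h]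
  have e := sq hB (nz h.1 (nng hu)) (nz h.1 (nng hv))
  have e1 : ∀ s t : ℤ, 1 * s + -b * t = -(1 * -s + b * t) := by intro s t; ring
  have e2 : ∀ s t : ℤ, 13 * -c * s + d * t = 13 * c * -s + d * t := by intro s t; ring
  rw [e1, e2, e1, e2]
  exact e

/-- multiplication by a matrix on the right -/
private lemma rm (hPlA : S13PlA) (hEdg : S13Edg) (hB : BalO (j + 1) G) {u1 u2 v1 v2 : ℤ}
    (hu : u1 ≠ 0 ∨ u2 ≠ 0) (hv : v1 ≠ 0 ∨ v2 ≠ 0) {α β γ δ : ℤ}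
    (hm : α * δ - 13 * β * γ = 1) (p : Pt (j + 1)) :
    edge13 0 u1 u2 v1 v2 G (trp 0 α β γ δ p).1 (trp 0 α β γ δ p).2 =
      edge13 0 (α * u1 + β * u2) (13 * γ * u1 + δ * u2) (α * v1 + β * v2)
        (13 * γ * v1 + δ * v2) G p.1 p.2 := by
  obtain ⟨b, c, d, h⟩ := exM hPlA j p.1 p.2
  have hm' : δ * α - 13 * γ * β = 1 := by linear_combination hm
  have hx : (trp 0 α β γ δ p).1 * ((α : ZMod (13 ^ (j + 1))) + 13 * γ * p.1) = β + δ * p.1 := by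
    have := ZMod.inv_mul_of_unit _ (un j hm p.1)
    unfold trp
    rw [zero_add, pow_one, mul_assoc, this, mul_one]
  have hy : (trp 0 α β γ δ p).2 * ((δ : ZMod (13 ^ (j + 1))) + 13 * β * p.2) = γ + α * p.2 := by
    have := ZMod.inv_mul_of_unit _ (un j hm' p.2)
    unfold trp
    rw [zero_add, pow_one, mul_assoc, this, mul_one]
  have h' := plM h hm hx hy
  have hu' := nz hm hu
  have hv' := nz hm hv
  rw [ed hEdg hB.1 hu' hv' h, ed hEdg hB.1 hu hv h']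
  congr 1 <;> congr 1 <;> ring

/-- circles: a matrix after `sw` -/
private lemma ci (hPlA : S13PlA) (hEdg : S13Edg) (hB : BalO (j + 1) G) {α β γ δ : ℤ}
    (hm : α * δ - 13 * β * γ = 1) {u1 u2 v1 v2 : ℤ}
    (hu : u1 ≠ 0 ∨ u2 ≠ 0) (hv : v1 ≠ 0 ∨ v2 ≠ 0) (p : Pt (j + 1)) :
    edge13 0 u1 u2 v1 v2 G (trp 0 α β γ δ (sw p)).1 (trp 0 α β γ δ (sw p)).2 =
      -edge13 0 (13 * γ * u1 + δ * u2) (13 * (α * u1 + β * u2)) (13 * γ * v1 + δ * v2)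
        (13 * (α * v1 + β * v2)) G p.1 p.2 := by
  rw [rm hPlA hEdg hB hu hv hm (sw p)]
  exact sw_rw hPlA hEdg hB (nz hm hu) (nz hm hv) p

/-- reflections: a matrix after `ng` -/
private lemma cn (hPlA : S13PlA) (hEdg : S13Edg) (hB : BalO (j + 1) G) {α β γ δ : ℤ}
    (hm : α * δ - 13 * β * γ = 1) {u1 u2 v1 v2 : ℤ}
    (hu : u1 ≠ 0 ∨ u2 ≠ 0) (hv : v1 ≠ 0 ∨ v2 ≠ 0) (p : Pt (j + 1)) :
    edge13 0 u1 u2 v1 v2 G (trp 0 α β γ δ (ng p)).1 (trp 0 α β γ δ (ng p)).2 =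
      edge13 0 (-(α * u1 + β * u2)) (13 * γ * u1 + δ * u2) (-(α * v1 + β * v2))
        (13 * γ * v1 + δ * v2) G p.1 p.2 := by
  rw [rm hPlA hEdg hB hu hv hm (ng p)]
  exact ng_rw hPlA hEdg hB (nz hm hu) (nz hm hv) p

private lemma cO_rw (hPlA : S13PlA) (hEdg : S13Edg) (hB : BalO (j + 1) G) {u1 u2 v1 v2 : ℤ}
    (hu : u1 ≠ 0 ∨ u2 ≠ 0) (hv : v1 ≠ 0 ∨ v2 ≠ 0) (p : Pt (j + 1)) :
    edge13 0 u1 u2 v1 v2 G (cO p).1 (cO p).2 =
      -edge13 0 (13 * 1 * u1 + -6 * u2) (13 * (2 * u1 + -1 * u2)) (13 * 1 * v1 + -6 * v2)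
        (13 * (2 * v1 + -1 * v2)) G p.1 p.2 :=
  ci hPlA hEdg hB (by norm_num) hu hv p

private lemma c3_rw (hPlA : S13PlA) (hEdg : S13Edg) (hB : BalO (j + 1) G) {u1 u2 v1 v2 : ℤ}
    (hu : u1 ≠ 0 ∨ u2 ≠ 0) (hv : v1 ≠ 0 ∨ v2 ≠ 0) (p : Pt (j + 1)) :
    edge13 0 u1 u2 v1 v2 G (c3 p).1 (c3 p).2 =
      -edge13 0 (13 * 1 * u1 + -4 * u2) (13 * (3 * u1 + -1 * u2)) (13 * 1 * v1 + -4 * v2)
        (13 * (3 * v1 + -1 * v2)) G p.1 p.2 :=
  ci hPlA hEdg hB (by norm_num) hu hv p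

private lemma dR_rw (hPlA : S13PlA) (hEdg : S13Edg) (hB : BalO (j + 1) G) {u1 u2 v1 v2 : ℤ}
    (hu : u1 ≠ 0 ∨ u2 ≠ 0) (hv : v1 ≠ 0 ∨ v2 ≠ 0) (p : Pt (j + 1)) :
    edge13 0 u1 u2 v1 v2 G (dR 0 p).1 (dR 0 p).2 =
      edge13 0 (-(1 * u1 + -1 * u2)) (13 * 0 * u1 + 1 * u2) (-(1 * v1 + -1 * v2))
        (13 * 0 * v1 + 1 * v2) G p.1 p.2 :=
  cn hPlA hEdg hB (by norm_num) hu hv p

private lemma memA (hPlA : S13PlA) (hEdg : S13Edg) (hB : BalO (j + 1) G) {u1 u2 v1 v2 : ℤ}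
    (hu : u1 ≠ 0 ∨ u2 ≠ 0) (hv : v1 ≠ 0 ∨ v2 ≠ 0) :
    (fun p : Pt (j + 1) => edge13 0 u1 u2 v1 v2 G p.1 p.2) ∈ anti13 (j + 1) :=
  fun p => ⟨shx hPlA hEdg hB hu hv p.1 p.2, shy hPlA hEdg hB hu hv p.1 p.2⟩

/-- the value at the cusp `u` -/
private noncomputable def V (G : ℤ → ℤ → ℂ) {m : ℕ} (p : Pt m) (u1 u2 : ℤ) : ℂ :=
  G (u1 + 13 ^ 0 * (p.1.val : ℤ) * u2)
    (13 * rY13 0 p.1 p.2 * u1 + (1 + 13 ^ (0 + 1) * (p.1.val : ℤ) * rY13 0 p.1 p.2) * u2)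

private lemma eV {m : ℕ} (p : Pt m) (u1 u2 v1 v2 : ℤ) :
    edge13 0 u1 u2 v1 v2 G p.1 p.2 = V G p u1 u2 - V G p v1 v2 := rfl

private lemma Vsc (hPlA : S13PlA) (hB : BalO (j + 1) G) (p : Pt (j + 1)) (k : ℤ) (hk : k ≠ 0)
    (u1 u2 : ℤ) (hu : u1 ≠ 0 ∨ u2 ≠ 0) : V G p (k * u1) (k * u2) = V G p u1 u2 := by
  have h0 := (hPlA 0 (j + 1) (j + 1) p.1 p.2).1
  have h := nz (a := 1) (b := (p.1.val : ℤ)) (c := rY13 0 p.1 p.2)
    (d := 1 + 13 ^ (0 + 1) * (p.1.val : ℤ) * rY13 0 p.1 p.2) (by linear_combination h0) hu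
  have h2 : u1 + 13 ^ 0 * (p.1.val : ℤ) * u2 ≠ 0 ∨
      13 * rY13 0 p.1 p.2 * u1 + (1 + 13 ^ (0 + 1) * (p.1.val : ℤ) * rY13 0 p.1 p.2) * u2 ≠ 0 := by
    rw [pow_zero, one_mul]
    rw [one_mul] at h
    exact h
  have e := hB.1.1 k _ _ hk h2
  unfold V
  rw [← e]
  congr 1 <;> ring

private lemma relf (hPlA : S13PlA) (hEdg : S13Edg) (hB : BalO (j + 1) G) (p : Pt (j + 1)) :
    edge13 0 1 0 0 1 G (ng p).1 (ng p).2 = 1 * edge13 0 1 0 0 1 G p.1 p.2 ∧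
    edge13 0 1 0 0 1 G (sw p).1 (sw p).2 = 1 * edge13 0 1 0 0 1 G p.1 p.2 := by
  rw [ng_rw hPlA hEdg hB (by norm_num) (by norm_num) p,
    sw_rw hPlA hEdg hB (by norm_num) (by norm_num) p]
  simp only [eV]
  have s := Vsc hPlA hB p
  have a1 := s (-1) (by norm_num) 1 0 (by norm_num)
  have a2 := s 13 (by norm_num) 0 1 (by norm_num)
  norm_num at a1 a2 ⊢
  rw [a1, a2]
  exact ⟨rfl, by ring⟩

private lemma rell (hPlA : S13PlA) (hEdg : S13Edg) (hB : BalO (j + 1) G) (p : Pt (j + 1)) :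
    edge13 0 1 0 1 2 G (dR 0 p).1 (dR 0 p).2 = 1 * edge13 0 1 0 1 2 G p.1 p.2 ∧
    edge13 0 1 0 1 2 G (cO p).1 (cO p).2 = 1 * edge13 0 1 0 1 2 G p.1 p.2 := by
  rw [dR_rw hPlA hEdg hB (by norm_num) (by norm_num) p,
    cO_rw hPlA hEdg hB (by norm_num) (by norm_num) p]
  simp only [eV]
  have s := Vsc hPlA hB p
  have a1 := s (-1) (by norm_num) 1 0 (by norm_num)
  have a2 := s 13 (by norm_num) 1 2 (by norm_num)
  norm_num at a1 a2 ⊢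
  rw [a1, a2]
  exact ⟨rfl, by ring⟩

private lemma rele (hPlA : S13PlA) (hEdg : S13Edg) (hB : BalO (j + 1) G) (p : Pt (j + 1)) :
    edge13 0 1 0 1 3 G (c3 p).1 (c3 p).2 = 1 * edge13 0 1 0 1 3 G p.1 p.2 := by
  rw [c3_rw hPlA hEdg hB (by norm_num) (by norm_num) p]
  simp only [eV]
  have s := Vsc hPlA hB p
  have a1 := s 13 (by norm_num) 1 3 (by norm_num)
  norm_num at a1 ⊢
  rw [a1]

private lemma relH (hPlA : S13PlA) (hEdg : S13Edg) (hB : BalO (j + 1) G) (p : Pt (j + 1)) :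
    (edge13 0 1 0 1 3 G p.1 p.2 - edge13 0 1 0 0 1 G p.1 p.2) +
      (edge13 0 1 0 1 3 G (sw (c3 p)).1 (sw (c3 p)).2 -
        edge13 0 1 0 0 1 G (sw (c3 p)).1 (sw (c3 p)).2) +
      (edge13 0 1 0 1 3 G (c3 (sw p)).1 (c3 (sw p)).2 -
        edge13 0 1 0 0 1 G (c3 (sw p)).1 (c3 (sw p)).2) = 0 := by
  rw [sw_rw hPlA hEdg hB (by norm_num) (by norm_num) (c3 p),
    c3_rw hPlA hEdg hB (by norm_num) (by norm_num) p,
    sw_rw hPlA hEdg hB (by norm_num) (by norm_num) (c3 p),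
    c3_rw hPlA hEdg hB (by norm_num) (by norm_num) p,
    c3_rw hPlA hEdg hB (by norm_num) (by norm_num) (sw p),
    sw_rw hPlA hEdg hB (by norm_num) (by norm_num) p,
    c3_rw hPlA hEdg hB (by norm_num) (by norm_num) (sw p),
    sw_rw hPlA hEdg hB (by norm_num) (by norm_num) p]
  simp only [eV]
  have s := Vsc hPlA hB p
  have a1 := s 13 (by norm_num) 1 3 (by norm_num)
  have a2 := s 13 (by norm_num) 0 1 (by norm_num)
  norm_num at a1 a2 ⊢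
  rw [a1, a2]
  ring

private lemma relS (hPlA : S13PlA) (hEdg : S13Edg) (hB : BalO (j + 1) G) (p : Pt (j + 1)) :
    (edge13 0 1 0 1 3 G p.1 p.2 - edge13 0 1 0 1 2 G p.1 p.2) +
      (edge13 0 1 0 1 3 G (c3 (cO p)).1 (c3 (cO p)).2 -
        edge13 0 1 0 1 2 G (c3 (cO p)).1 (c3 (cO p)).2) = 0 := by
  rw [c3_rw hPlA hEdg hB (by norm_num) (by norm_num) (cO p),
    cO_rw hPlA hEdg hB (by norm_num) (by norm_num) p,
    c3_rw hPlA hEdg hB (by norm_num) (by norm_num) (cO p),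
    cO_rw hPlA hEdg hB (by norm_num) (by norm_num) p]
  simp only [eV]
  have s := Vsc hPlA hB p
  have a1 := s (-13) (by norm_num) 1 3 (by norm_num)
  have a2 := s 13 (by norm_num) 1 2 (by norm_num)
  norm_num at a1 a2 ⊢
  rw [a1, a2]
  ring

private lemma memO (hPlA : S13PlA) (hEdg : S13Edg) (hB : BalO (j + 1) G) :
    (((fun p : Pt (j + 1) => edge13 0 1 0 0 1 G p.1 p.2),
      (fun p : Pt (j + 1) => edge13 0 1 0 1 2 G p.1 p.2)),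
      (fun p : Pt (j + 1) => edge13 0 1 0 1 3 G p.1 p.2)) ∈ subO (j + 1) := by
  refine ⟨⟨memA hPlA hEdg hB (by norm_num) (by norm_num), fun p => relf hPlA hEdg hB p⟩,
    ⟨memA hPlA hEdg hB (by norm_num) (by norm_num), fun p => rell hPlA hEdg hB p⟩,
    ⟨memA hPlA hEdg hB (by norm_num) (by norm_num), fun p => rele hPlA hEdg hB p⟩,
    fun p => ⟨relH hPlA hEdg hB p, relS hPlA hEdg hB p⟩⟩

end

/-! ### Injectivity -/

/-- every matrix has coordinates -/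
private lemma exPl (j : ℕ) {a b c d : ℤ} (h : a * d - 13 * b * c = 1) :
    ∃ x y : ZMod (13 ^ (j + 1)), P0 a b c d x y := by
  have ha : IsUnit (a : ZMod (13 ^ (j + 1))) := by
    have := un j h 0
    rwa [mul_zero, add_zero] at this
  have hd : IsUnit (d : ZMod (13 ^ (j + 1))) := by
    have := un j (α := d) (β := c) (γ := b) (δ := a) (by linear_combination h) 0
    rwa [mul_zero, add_zero] at this
  refine ⟨b * (a : ZMod (13 ^ (j + 1)))⁻¹, c * (d : ZMod (13 ^ (j + 1)))⁻¹, h, ?_, ?_⟩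
  · rw [mul_assoc, ZMod.inv_mul_of_unit _ ha, mul_one]
  · rw [mul_assoc, ZMod.inv_mul_of_unit _ hd, mul_one]

/-- the symmetries of the potential -/
private structure Inv (G : ℤ → ℤ → ℂ) : Prop where
  hom : Homog G
  st : ∀ x y z w : ℤ, (x ≠ 0 ∨ y ≠ 0) → (z ≠ 0 ∨ w ≠ 0) → G (-x) y - G (-z) w = G x y - G z w

/-- the two vectors have equal values for all matrices -/
private def W (G : ℤ → ℤ → ℂ) (u1 u2 v1 v2 : ℤ) : Prop :=
  (u1 ≠ 0 ∨ u2 ≠ 0) ∧ (v1 ≠ 0 ∨ v2 ≠ 0) ∧ ∀ a b c d : ℤ, a * d - 13 * b * c = 1 →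
    G (a * u1 + b * u2) (13 * c * u1 + d * u2) = G (a * v1 + b * v2) (13 * c * v1 + d * v2)

section

variable {G : ℤ → ℤ → ℂ}

private lemma W.tr {u1 u2 v1 v2 w1 w2 : ℤ} (h : W G u1 u2 v1 v2) (h' : W G v1 v2 w1 w2) :
    W G u1 u2 w1 w2 :=
  ⟨h.1, h'.2.1, fun a b c d hT => (h.2.2 a b c d hT).trans (h'.2.2 a b c d hT)⟩

private lemma W.sy {u1 u2 v1 v2 : ℤ} (h : W G u1 u2 v1 v2) : W G v1 v2 u1 u2 :=
  ⟨h.2.1, h.1, fun a b c d hT => (h.2.2 a b c d hT).symm⟩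

/-- scaling -/
private lemma W.sc (hI : Inv G) {s1 s2 t1 t2 : ℤ} (h : W G s1 s2 t1 t2) (k l : ℤ)
    {u1 u2 v1 v2 : ℤ} (hs : k ≠ 0 ∧ l ≠ 0 ∧ s1 = k * u1 ∧ s2 = k * u2 ∧ t1 = l * v1 ∧
      t2 = l * v2) : W G u1 u2 v1 v2 := by
  obtain ⟨hk, hl, rfl, rfl, rfl, rfl⟩ := hs
  obtain ⟨h1, h2, h3⟩ := h
  have hu : u1 ≠ 0 ∨ u2 ≠ 0 := by
    rcases h1 with h | h
    · exact Or.inl (right_ne_zero_of_mul h)
    · exact Or.inr (right_ne_zero_of_mul h)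
  have hv : v1 ≠ 0 ∨ v2 ≠ 0 := by
    rcases h2 with h | h
    · exact Or.inl (right_ne_zero_of_mul h)
    · exact Or.inr (right_ne_zero_of_mul h)
  refine ⟨hu, hv, fun a b c d hT => ?_⟩
  have e := h3 a b c d hT
  have f1 := hI.hom k _ _ hk (nz hT hu)
  have f2 := hI.hom l _ _ hl (nz hT hv)
  rw [← f1, ← f2]
  calc _ = _ := by congr 1 <;> ring
    _ = _ := e
    _ = _ := by congr 1 <;> ring

private lemma neq {x y : ℤ} (h : x ≠ 0 ∨ y ≠ 0) : -x ≠ 0 ∨ y ≠ 0 := by omega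

/-- conjugation by `*` -/
private lemma W.st (hI : Inv G) {u1 u2 v1 v2 : ℤ} (h : W G u1 u2 v1 v2) :
    W G (-u1) u2 (-v1) v2 := by
  refine ⟨neq h.1, neq h.2.1, fun a b c d hT => ?_⟩
  have hT' : a * d - 13 * (-b) * (-c) = 1 := by linear_combination hT
  have e := hI.st _ _ _ _ (nz hT' h.1) (nz hT' h.2.1)
  rw [h.2.2 _ _ _ _ hT', sub_self] at e
  have e' := sub_eq_zero.1 e
  calc _ = _ := by congr 1 <;> ring
    _ = _ := e'
    _ = _ := by congr 1 <;> ring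

/-- multiplication by a matrix on the right -/
private lemma W.rm {u1 u2 v1 v2 : ℤ} (h : W G u1 u2 v1 v2) (α β γ δ : ℤ)
    (hm : α * δ - 13 * β * γ = 1) :
    W G (α * u1 + β * u2) (13 * γ * u1 + δ * u2) (α * v1 + β * v2)
      (13 * γ * v1 + δ * v2) := by
  refine ⟨nz hm h.1, nz hm h.2.1, fun a b c d hT => ?_⟩
  have e := h.2.2 (a * α + 13 * b * γ) (a * β + b * δ) (c * α + d * γ) (13 * c * β + d * δ)
    (by linear_combination (α * δ - 13 * β * γ) * hT + hm)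
  calc _ = _ := by congr 1 <;> ring
    _ = _ := e
    _ = _ := by congr 1 <;> ring

/-- absolute values of the cusps -/
private def Cu : List (ℕ × ℕ) := [(1, 0), (0, 1), (1, 1), (1, 2), (1, 3)]

private lemma W.ng (hI : Inv G) {x y : ℤ} (h : W G 1 0 x y) : W G 1 0 (-x) (-y) :=
  h.sc hI 1 (-1) ⟨by norm_num, by norm_num, by norm_num, by norm_num, by ring, by ring⟩

private lemma W.mi (hI : Inv G) {x y : ℤ} (h : W G 1 0 x y) : W G 1 0 (-x) y :=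
  (h.st hI).sc hI (-1) 1 ⟨by norm_num, by norm_num, by norm_num, by norm_num, by ring, by ring⟩

/-- the cusps are equivalent to `∞` -/
private lemma cusps (hI : Inv G) (h1 : W G 1 0 0 1) (h2 : W G 1 0 1 2) (h3 : W G 1 0 1 3) :
    ∀ c ∈ Cu, W G 1 0 (c.1 : ℤ) (c.2 : ℤ) := by
  have q10 : W G 1 0 1 0 := h1.tr h1.sy
  have q11 : W G 1 0 1 1 := by
    have : W G 1 0 (-1) 1 := (h1.rm 1 (-1) 0 1 (by norm_num)).sc hI 1 1 (by norm_num)
    exact (this.mi hI).sc hI 1 1 (by norm_num)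
  intro c hc
  simp only [Cu, List.mem_cons, List.not_mem_nil, or_false] at hc
  rcases hc with rfl | rfl | rfl | rfl | rfl
  all_goals simp only [Nat.cast_one, Nat.cast_zero, Nat.cast_ofNat]; assumption

private lemma abs_cusp (hI : Inv G) (h : ∀ c ∈ Cu, W G 1 0 (c.1 : ℤ) (c.2 : ℤ)) {x y : ℤ}
    (hc : (x.natAbs, y.natAbs) ∈ Cu) : W G 1 0 x y := by
  have e : W G 1 0 (x.natAbs : ℤ) (y.natAbs : ℤ) := h _ hc
  rcases Int.natAbs_eq x with hx | hx <;> rcases Int.natAbs_eq y with hy | hy <;> rw [hx, hy]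
  · exact e
  · have := (e.ng hI).mi hI
    rwa [neg_neg] at this
  · exact e.mi hI
  · exact e.ng hI

end

private lemma ok : ∀ t ∈ LO, (t.1.natAbs, t.2.2.1.natAbs) ∈ Cu ∧
    (t.2.1.natAbs, t.2.2.2.natAbs) ∈ Cu := by decide

/-- Module O1. -/
theorem hO1 : StHO1 := by
  intro he ha _ hrep hfar k G hk hB
  obtain ⟨j, rfl⟩ : ∃ j, k = j + 1 := ⟨k - 1, by omega⟩
  refine ⟨memO ha he hB, fun hz => ?_⟩
  have hI : Inv G := ⟨hB.1.1, fun x y z w h1 h2 => sq hB h1 h2⟩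
  have key : ∀ u1 u2 v1 v2 : ℤ, (u1 ≠ 0 ∨ u2 ≠ 0) → (v1 ≠ 0 ∨ v2 ≠ 0) →
      (∀ x y : ZMod (13 ^ (j + 1)), edge13 0 u1 u2 v1 v2 G x y = 0) → W G u1 u2 v1 v2 := by
    intro u1 u2 v1 v2 hu hv h0
    refine ⟨hu, hv, fun a b c d hg => ?_⟩
    obtain ⟨x, y, hp⟩ := exPl j hg
    have e := ed he hB.1 hu hv hp
    rw [h0 x y] at e
    exact (sub_eq_zero.1 e.symm)
  have h1 : W G 1 0 0 1 := key 1 0 0 1 (by norm_num) (by norm_num) fun x y => (hz x y).1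
  have h2 : W G 1 0 1 2 := key 1 0 1 2 (by norm_num) (by norm_num) fun x y => (hz x y).2.1
  have h3 : W G 1 0 1 3 := key 1 0 1 3 (by norm_num) (by norm_num) fun x y => (hz x y).2.2
  have hC := cusps hI h1 h2 h3
  refine hfar ℂ _ G hB.1.1 fun p q r s h => ?_
  obtain ⟨t, ht, α, β, γ, δ, hd, e1, e2, e3, e4⟩ := hrep.2.2 p q r s h
  obtain ⟨f2, f3⟩ := ok t ht
  rw [e1, e2, e3, e4]
  exact ((abs_cusp hI hC f2).sy.tr (abs_cusp hI hC f3)).2.2 α β γ δ hd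

end Pool.Agent.Helper60.P13
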